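import Mathlib

set_option autoImplicit false

open Set Filter Topology Metric MeasureTheory
open scoped ENNReal NNReal

namespace Pool.Agent.Results.MP_725b87_an.UpperTestAE

/-- complex n-space with its Hermitian norm -/
abbrev Cn (n : ℕ) : Type := EuclideanSpace ℂ (Fin n)

/-- The point z + e^{iθ} w on the boundary circle of the complex disc z + D w. -/
noncomputable def circ {n : ℕ} (z w : Cn n) (θ : ℝ) : Cn n :=
  z + Complex.exp ((θ : ℂ) * Complex.I) • w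

/-- Plurisubharmonic functions on an open set Ω, with values in [-∞, ∞).  The function is upper
semicontinuous on Ω and, for every closed complex disc {z + ζ w, |ζ| ≤ 1} contained in Ω, the
value at the centre z is at most the mean over the boundary circle.  The mean of an upper
semicontinuous function is the infimum of the means of its continuous majorants. -/
def IsPSH {n : ℕ} (Ω : Set (Cn n)) (φ : Cn n → EReal) : Prop :=
  (∀ z ∈ Ω, φ z ≠ ⊤) ∧ UpperSemicontinuousOn φ Ω ∧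
  ∀ z w : Cn n, (∀ ζ : ℂ, ‖ζ‖ ≤ 1 → z + ζ • w ∈ Ω) →
    ∀ h : ℝ → ℝ, Continuous h → (∀ θ ∈ Icc 0 (2 * Real.pi), φ (circ z w θ) ≤ (h θ : EReal)) →
      φ z ≤ (((2 * Real.pi)⁻¹ * ∫ θ in (0 : ℝ)..(2 * Real.pi), h θ : ℝ) : EReal)

/-- A differential test from above for φ at z: a function q of class C^2 on an open neighbourhood
V ⊆ Ω of z with (φ - q)(z) = sup over V of (φ - q). -/
def HasUpperTest {n : ℕ} (Ω : Set (Cn n)) (φ : Cn n → EReal) (z : Cn n) : Prop :=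
  ∃ (V : Set (Cn n)) (q : Cn n → ℝ), IsOpen V ∧ V ⊆ Ω ∧ z ∈ V ∧ ContDiffOn ℝ 2 q V ∧
    ∀ y ∈ V, φ y - (q y : EReal) ≤ φ z - (q z : EReal)

/-- The exceptional set E(φ). -/
def exceptional {n : ℕ} (Ω : Set (Cn n)) (φ : Cn n → EReal) : Set (Cn n) :=
  {z | z ∈ Ω ∧ ¬ HasUpperTest Ω φ z}

/-! ### Means over circles -/

theorem circ_continuous {n : ℕ} (z w : Cn n) : Continuous (circ z w) := by
  unfold circ; fun_prop

theorem norm_circ_sub_sq {n : ℕ} (y w b : Cn n) (θ : ℝ) :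
    ‖circ y w θ - b‖ ^ 2 = (‖y - b‖ ^ 2 + ‖w‖ ^ 2) +
      Real.cos θ * (2 * (inner ℂ (y - b) w).re) +
      Real.sin θ * (-2 * (inner ℂ (y - b) w).im) := by
  have h0 : circ y w θ - b = (y - b) + Complex.exp ((θ : ℂ) * Complex.I) • w := by
    unfold circ; abel
  rw [h0, @norm_add_sq ℂ, norm_smul, Complex.norm_exp_ofReal_mul_I, one_mul,
    inner_smul_right]
  have h1 : RCLike.re (Complex.exp ((θ : ℂ) * Complex.I) * inner ℂ (y - b) w) =
      Real.cos θ * (inner ℂ (y - b) w).re - Real.sin θ * (inner ℂ (y - b) w).im := by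
    rw [RCLike.re_eq_complex_re, Complex.mul_re, Complex.exp_ofReal_mul_I_re,
      Complex.exp_ofReal_mul_I_im]
  rw [h1]; ring

theorem mean_trig (C1 C2 a1 a2 b1 b2 : ℝ) :
    (2 * Real.pi)⁻¹ * ∫ θ in (0 : ℝ)..(2 * Real.pi),
      ((1 - (1 + Real.cos θ) / 2) * (C1 + Real.cos θ * a1 + Real.sin θ * b1) +
        (1 + Real.cos θ) / 2 * (C2 + Real.cos θ * a2 + Real.sin θ * b2)) =
      (C1 + C2) / 2 + (a2 - a1) / 4 := by
  have hpt : ∀ θ : ℝ,
      ((1 - (1 + Real.cos θ) / 2) * (C1 + Real.cos θ * a1 + Real.sin θ * b1) +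
        (1 + Real.cos θ) / 2 * (C2 + Real.cos θ * a2 + Real.sin θ * b2)) =
      (C1 + C2) / 2 + ((Real.cos θ * ((a1 + a2 - C1 + C2) / 2) +
        Real.sin θ * ((b1 + b2) / 2)) + (Real.cos θ ^ 2 * ((a2 - a1) / 2) +
        (Real.sin θ * Real.cos θ) * ((b2 - b1) / 2))) := by
    intro θ; ring
  simp_rw [hpt]
  have hc : ∀ f : ℝ → ℝ, Continuous f → IntervalIntegrable f volume 0 (2 * Real.pi) :=
    fun f hf => hf.intervalIntegrable _ _
  rw [intervalIntegral.integral_add (hc _ (by fun_prop)) (hc _ (by fun_prop)),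
    intervalIntegral.integral_add (hc _ (by fun_prop)) (hc _ (by fun_prop)),
    intervalIntegral.integral_add (hc _ (by fun_prop)) (hc _ (by fun_prop)),
    intervalIntegral.integral_add (hc _ (by fun_prop)) (hc _ (by fun_prop)),
    intervalIntegral.integral_const, intervalIntegral.integral_mul_const,
    intervalIntegral.integral_mul_const, intervalIntegral.integral_mul_const,
    intervalIntegral.integral_mul_const, integral_cos, integral_sin, integral_cos_sq,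
    integral_sin_mul_cos₁]
  have : Real.pi ≠ 0 := Real.pi_ne_zero
  simp
  field_simp
  ring

/-- The mean value inequality with two quadratic majorants. -/
theorem two_majorants {n : ℕ} {Ω : Set (Cn n)} {φ : Cn n → EReal} (hφ : IsPSH Ω φ)
    {B : Set (Cn n)} (hB : B ⊆ Ω) {y w b₁ b₂ : Cn n} {f c₁ c₂ K : ℝ}
    (hdisc : ∀ ζ : ℂ, ‖ζ‖ ≤ 1 → y + ζ • w ∈ B) (hf : φ y = (f : EReal))
    (h₁ : ∀ x ∈ B, φ x ≤ ((c₁ + K * ‖x - b₁‖ ^ 2 : ℝ) : EReal))
    (h₂ : ∀ x ∈ B, φ x ≤ ((c₂ + K * ‖x - b₂‖ ^ 2 : ℝ) : EReal)) :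
    f ≤ ((c₁ + K * ‖y - b₁‖ ^ 2) + (c₂ + K * ‖y - b₂‖ ^ 2)) / 2 + K * ‖w‖ ^ 2 +
      K / 2 * ((inner ℂ (y - b₂) w).re - (inner ℂ (y - b₁) w).re) := by
  set h : ℝ → ℝ := fun θ => (1 - (1 + Real.cos θ) / 2) * (c₁ + K * ‖circ y w θ - b₁‖ ^ 2) +
    (1 + Real.cos θ) / 2 * (c₂ + K * ‖circ y w θ - b₂‖ ^ 2) with hh
  have hcont : Continuous h := by
    have := circ_continuous y w
    fun_prop
  have hmem : ∀ θ : ℝ, circ y w θ ∈ B := by
    intro θ
    exact hdisc _ (by rw [Complex.norm_exp_ofReal_mul_I])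
  have hmaj : ∀ θ ∈ Icc 0 (2 * Real.pi), φ (circ y w θ) ≤ (h θ : EReal) := by
    intro θ _
    have e₁ := h₁ _ (hmem θ)
    have e₂ := h₂ _ (hmem θ)
    rcases le_total (c₁ + K * ‖circ y w θ - b₁‖ ^ 2) (c₂ + K * ‖circ y w θ - b₂‖ ^ 2) with hle | hle
    · refine e₁.trans (EReal.coe_le_coe_iff.2 ?_)
      simp only [hh]
      nlinarith [Real.cos_le_one θ, Real.neg_one_le_cos θ]
    · refine e₂.trans (EReal.coe_le_coe_iff.2 ?_)
      simp only [hh]
      nlinarith [Real.cos_le_one θ, Real.neg_one_le_cos θ]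
  have hmain := hφ.2.2 y w (fun ζ hζ => hB (hdisc ζ hζ)) h hcont hmaj
  rw [hf, EReal.coe_le_coe_iff] at hmain
  have hval : (2 * Real.pi)⁻¹ * ∫ θ in (0 : ℝ)..(2 * Real.pi), h θ =
      ((c₁ + K * (‖y - b₁‖ ^ 2 + ‖w‖ ^ 2)) + (c₂ + K * (‖y - b₂‖ ^ 2 + ‖w‖ ^ 2))) / 2 +
      (K * (2 * (inner ℂ (y - b₂) w).re) - K * (2 * (inner ℂ (y - b₁) w).re)) / 4 := by
    rw [← mean_trig _ _ (K * (2 * (inner ℂ (y - b₁) w).re)) (K * (2 * (inner ℂ (y - b₂) w).re))
      (K * (-2 * (inner ℂ (y - b₁) w).im)) (K * (-2 * (inner ℂ (y - b₂) w).im))]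
    congr 1
    apply intervalIntegral.integral_congr
    intro θ _
    simp only [hh]
    rw [norm_circ_sub_sq, norm_circ_sub_sq]
    ring
  rw [hval] at hmain
  nlinarith [hmain]

/-- `z` is the vertex of a paraboloid of opening `2K` touching `φ` from above, over `B`, at `y`. -/
def Touch {n : ℕ} (B : Set (Cn n)) (φ : Cn n → EReal) (K : ℝ) (z y : Cn n) : Prop :=
  y ∈ B ∧ ∀ x ∈ B, ∀ a : ℝ, (a : EReal) ≤ φ x →
    ((a - K * ‖x - z‖ ^ 2 + K * ‖y - z‖ ^ 2 : ℝ) : EReal) ≤ φ y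

theorem Touch.le {n : ℕ} {B : Set (Cn n)} {φ : Cn n → EReal} {K : ℝ} {z y : Cn n} {f : ℝ}
    (h : Touch B φ K z y) (hf : φ y = (f : EReal)) (htop : ∀ x ∈ B, φ x ≠ ⊤) :
    ∀ x ∈ B, φ x ≤ (((f - K * ‖y - z‖ ^ 2) + K * ‖x - z‖ ^ 2 : ℝ) : EReal) := by
  intro x hx
  rcases eq_or_ne (φ x) ⊥ with hb | hb
  · rw [hb]; exact bot_le
  · lift φ x to ℝ using ⟨htop x hx, hb⟩ with a ha
    have := h.2 x hx a ha.le
    rw [hf, EReal.coe_le_coe_iff] at this
    exact EReal.coe_le_coe_iff.2 (by linarith)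

/-- The vertex is a Lipschitz function of the contact point. -/
theorem touch_dist {n : ℕ} {Ω : Set (Cn n)} {φ : Cn n → EReal} (hφ : IsPSH Ω φ)
    {B : Set (Cn n)} (hB : B ⊆ Ω) {K ρ : ℝ} (hK : 0 < K) (hρ : 0 < ρ)
    {z₁ z₂ y₁ y₂ : Cn n} {f₁ f₂ : ℝ} (h₁ : Touch B φ K z₁ y₁) (h₂ : Touch B φ K z₂ y₂)
    (hf₁ : φ y₁ = (f₁ : EReal)) (hf₂ : φ y₂ = (f₂ : EReal))
    (hy : ‖y₁ - y₂‖ ≤ ρ) (hball : closedBall y₁ (4 * ρ) ⊆ B) : ‖z₁ - z₂‖ ≤ 16 * ρ := by
  rcases eq_or_ne z₁ z₂ with hz | hz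
  · rw [hz]; simp; positivity
  have hΔ : 0 < ‖z₂ - z₁‖ := norm_pos_iff.2 (sub_ne_zero.2 (Ne.symm hz))
  set Δ := ‖z₂ - z₁‖ with hΔd
  set w : Cn n := ((4 * ρ / Δ : ℝ) : ℂ) • (z₂ - z₁) with hw
  have hwn : ‖w‖ = 4 * ρ := by
    rw [hw, norm_smul, Complex.norm_real, Real.norm_eq_abs, abs_of_pos (by positivity), ← hΔd]
    field_simp
  have hdisc : ∀ ζ : ℂ, ‖ζ‖ ≤ 1 → y₁ + ζ • w ∈ B := by
    intro ζ hζ
    apply hball
    rw [mem_closedBall, dist_eq_norm, add_sub_cancel_left, norm_smul, hwn]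
    nlinarith
  have htop : ∀ x ∈ B, φ x ≠ ⊤ := fun x hx => hφ.1 x (hB hx)
  have key := two_majorants hφ hB hdisc hf₁ (h₁.le hf₁ htop) (h₂.le hf₂ htop)
  -- the comparison at y₂
  have hc := h₁.le hf₁ htop y₂ h₂.1
  rw [hf₂, EReal.coe_le_coe_iff] at hc
  -- inner products
  have hin : (inner ℂ (y₁ - z₂) w).re - (inner ℂ (y₁ - z₁) w).re = -(4 * ρ * Δ) := by
    rw [← Complex.sub_re, ← inner_sub_left]
    have : y₁ - z₂ - (y₁ - z₁) = -(z₂ - z₁) := by abel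
    rw [this, hw, inner_smul_right, inner_neg_left, inner_self_eq_norm_sq_to_K]
    rw [← hΔd]
    have : (((4 * ρ / Δ : ℝ) : ℂ) * -((Δ : ℝ) : ℂ) ^ 2) = ((-(4 * ρ * Δ) : ℝ) : ℂ) := by
      push_cast
      have : (Δ : ℂ) ≠ 0 := by exact_mod_cast hΔ.ne'
      field_simp
    have h2 := congrArg Complex.re this
    rw [Complex.ofReal_re] at h2
    exact h2
  -- polarisation
  have hpol : (‖y₁ - z₂‖ ^ 2 - ‖y₁ - z₁‖ ^ 2) - (‖y₂ - z₂‖ ^ 2 - ‖y₂ - z₁‖ ^ 2) ≤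
      2 * ρ * Δ := by
    have e₁ : ‖y₁ - z₂‖ ^ 2 = ‖y₁ - z₁‖ ^ 2 - 2 * (inner ℂ (y₁ - z₁) (z₂ - z₁)).re + Δ ^ 2 := by
      have : y₁ - z₂ = (y₁ - z₁) - (z₂ - z₁) := by abel
      rw [this, @norm_sub_sq ℂ]; rfl
    have e₂ : ‖y₂ - z₂‖ ^ 2 = ‖y₂ - z₁‖ ^ 2 - 2 * (inner ℂ (y₂ - z₁) (z₂ - z₁)).re + Δ ^ 2 := by
      have : y₂ - z₂ = (y₂ - z₁) - (z₂ - z₁) := by abel
      rw [this, @norm_sub_sq ℂ]; rfl
    have e₃ : (inner ℂ (y₂ - z₁) (z₂ - z₁)).re - (inner ℂ (y₁ - z₁) (z₂ - z₁)).re =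
        (inner ℂ (y₂ - y₁) (z₂ - z₁)).re := by
      rw [← Complex.sub_re, ← inner_sub_left]
      congr 2
      abel
    have e₄ : (inner ℂ (y₂ - y₁) (z₂ - z₁)).re ≤ ρ * Δ := by
      calc (inner ℂ (y₂ - y₁) (z₂ - z₁)).re ≤ ‖inner ℂ (y₂ - y₁) (z₂ - z₁)‖ :=
            Complex.re_le_norm _
        _ ≤ ‖y₂ - y₁‖ * ‖z₂ - z₁‖ := norm_inner_le_norm _ _
        _ ≤ ρ * Δ := by
            rw [norm_sub_rev y₂ y₁]
            exact mul_le_mul_of_nonneg_right hy hΔ.le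
    rw [e₁, e₂]
    linarith
  rw [hin, hwn] at key
  have hkey : K * (Δ * ρ) ≤ K * (16 * ρ * ρ) := by nlinarith
  have h3 : Δ * ρ ≤ 16 * ρ * ρ := le_of_mul_le_mul_left hkey hK
  have h4 : Δ ≤ 16 * ρ := le_of_mul_le_mul_right h3 hρ
  rw [norm_sub_rev, ← hΔd]
  exact h4

/-- A touching point lies outside the exceptional set. -/
theorem touch_test {n : ℕ} {Ω : Set (Cn n)} {φ : Cn n → EReal} (hφ : IsPSH Ω φ)
    {B V : Set (Cn n)} (hB : B ⊆ Ω) (hV : IsOpen V) (hVB : V ⊆ B) {K : ℝ} {z y : Cn n} {f : ℝ}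
    (h : Touch B φ K z y) (hf : φ y = (f : EReal)) (hy : y ∈ V) : HasUpperTest Ω φ y := by
  refine ⟨V, fun x => K * ‖x - z‖ ^ 2, hV, hVB.trans hB, hy, ?_, ?_⟩
  · apply ContDiff.contDiffOn
    apply contDiff_const.mul
    exact (contDiff_norm_sq ℂ).comp (contDiff_id.sub contDiff_const)
  · intro x hx
    have htop : ∀ x ∈ B, φ x ≠ ⊤ := fun x hx => hφ.1 x (hB hx)
    have h1 := h.le hf htop x (hVB hx)
    rcases eq_or_ne (φ x) ⊥ with hb | hb
    · rw [hb, EReal.bot_sub]; exact bot_le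
    · lift φ x to ℝ using ⟨htop x (hVB hx), hb⟩ with a ha
      rw [hf]
      rw [EReal.coe_le_coe_iff] at h1
      rw [← EReal.coe_sub, ← EReal.coe_sub, EReal.coe_le_coe_iff]
      linarith

/-- Every point is the vertex of a touching paraboloid. -/
theorem exists_touch {n : ℕ} {B : Set (Cn n)} {φ : Cn n → EReal} (hB : IsCompact B)
    (hne : B.Nonempty) (htop : ∀ x ∈ B, φ x ≠ ⊤) (husc : UpperSemicontinuousOn φ B) (K : ℝ)
    (z : Cn n) : ∃ y, Touch B φ K z y := by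
  have hg : UpperSemicontinuousOn (fun x => φ x + ((-(K * ‖x - z‖ ^ 2) : ℝ) : EReal)) B := by
    apply UpperSemicontinuousOn.add' husc
    · have hc : Continuous (fun x : Cn n => ((-(K * ‖x - z‖ ^ 2) : ℝ) : EReal)) := by
        apply continuous_coe_real_ereal.comp
        fun_prop
      exact hc.upperSemicontinuous.upperSemicontinuousOn _
    · intro x _
      exact EReal.continuousAt_add (Or.inr (EReal.coe_ne_bot _)) (Or.inr (EReal.coe_ne_top _))
  obtain ⟨y, hy, hmax⟩ := hg.exists_isMaxOn hne hB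
  refine ⟨y, hy, ?_⟩
  intro x hx a ha
  have h1 : φ x + ((-(K * ‖x - z‖ ^ 2) : ℝ) : EReal) ≤ φ y + ((-(K * ‖y - z‖ ^ 2) : ℝ) : EReal) :=
    hmax hx
  have h2 : (a : EReal) + ((-(K * ‖x - z‖ ^ 2) : ℝ) : EReal) ≤
      φ y + ((-(K * ‖y - z‖ ^ 2) : ℝ) : EReal) := (add_le_add_left ha _).trans h1
  rcases eq_or_ne (φ y) ⊥ with hb | hb
  · rw [hb, EReal.bot_add, ← EReal.coe_add] at h2
    exact absurd h2 (not_le.2 (EReal.bot_lt_coe _))
  · lift φ y to ℝ using ⟨htop y hy, hb⟩ with f hf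
    rw [← EReal.coe_add, ← EReal.coe_add, EReal.coe_le_coe_iff] at h2
    exact EReal.coe_le_coe_iff.2 (by linarith)

/-- The set of touching points with vertex in a compact set is closed. -/
theorem isClosed_touch {n : ℕ} {B V : Set (Cn n)} {φ : Cn n → EReal} (hB : IsClosed B)
    (hV : IsCompact V) (husc : UpperSemicontinuousOn φ B) (K : ℝ) :
    IsClosed {y | ∃ z ∈ V, Touch B φ K z y} := by
  apply IsSeqClosed.isClosed
  intro u y hu huy
  choose z hzV hz using hu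
  obtain ⟨z₀, hz₀, σ, hσ, hlim⟩ := hV.tendsto_subseq hzV
  have hyB : y ∈ B := hB.mem_of_tendsto huy (Eventually.of_forall fun k => (hz k).1)
  refine ⟨z₀, hz₀, hyB, ?_⟩
  intro x hx a ha
  by_contra hcon
  rw [not_le] at hcon
  obtain ⟨b, hb₁, hb₂⟩ := EReal.lt_iff_exists_real_btwn.1 hcon
  rw [EReal.coe_lt_coe_iff] at hb₂
  have huσ : Tendsto (fun k => u (σ k)) atTop (𝓝 y) := huy.comp hσ.tendsto_atTop
  have huσ' : Tendsto (fun k => u (σ k)) atTop (𝓝[B] y) :=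
    tendsto_nhdsWithin_iff.2 ⟨huσ, Eventually.of_forall fun k => (hz _).1⟩
  have e₁ : ∀ᶠ k in atTop, φ (u (σ k)) < (b : EReal) := huσ'.eventually (husc y hyB _ hb₁)
  have e₂ : Tendsto (fun k => a - K * ‖x - z (σ k)‖ ^ 2 + K * ‖u (σ k) - z (σ k)‖ ^ 2) atTop
      (𝓝 (a - K * ‖x - z₀‖ ^ 2 + K * ‖y - z₀‖ ^ 2)) := by
    have hl : Tendsto (fun k => z (σ k)) atTop (𝓝 z₀) := hlim
    exact (tendsto_const_nhds.sub (((tendsto_const_nhds.sub hl).norm.pow 2).const_mul K)).add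
      (((huσ.sub hl).norm.pow 2).const_mul K)
  have e₃ := e₂.eventually (lt_mem_nhds hb₂)
  obtain ⟨k, hk₁, hk₂⟩ := (e₁.and e₃).exists
  have h := (hz (σ k)).2 x hx a ha
  have h' := h.trans_lt hk₁
  rw [EReal.coe_lt_coe_iff] at h'
  linarith

/-- Main estimate: near a point close to which φ is not identically -∞ there are many points
with a test from above. -/
theorem many_tests {n : ℕ} {Ω : Set (Cn n)} {φ : Cn n → EReal} (hφ : IsPSH Ω φ)
    {x₀ x₁ : Cn n} {s : ℝ} (hs : 0 < s) (hball : closedBall x₀ (40 * s) ⊆ Ω)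
    (hx₁ : x₁ ∈ closedBall x₀ s) (hfin : φ x₁ ≠ ⊥) :
    ∃ A : Set (Cn n), IsClosed A ∧ A ⊆ closedBall x₀ (40 * s) ∧ Disjoint A (exceptional Ω φ) ∧
      μH[Module.finrank ℝ (Cn n)] (closedBall x₁ s) ≤
        (16 : ℝ≥0∞) ^ (Module.finrank ℝ (Cn n)) * μH[Module.finrank ℝ (Cn n)] A := by
  set B := closedBall x₀ (40 * s) with hBdef
  have hBc : IsCompact B := isCompact_closedBall _ _
  have htop : ∀ x ∈ B, φ x ≠ ⊤ := fun x hx => hφ.1 x (hball hx)
  have husc : UpperSemicontinuousOn φ B := hφ.2.1.mono hball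
  have hx₁d : ‖x₁ - x₀‖ ≤ s := by rwa [mem_closedBall, dist_eq_norm] at hx₁
  have hx₁B : x₁ ∈ B := by
    rw [hBdef, mem_closedBall, dist_eq_norm]; linarith
  have hBne : B.Nonempty := ⟨x₁, hx₁B⟩
  obtain ⟨S, hS⟩ : ∃ S : ℝ, ∀ x ∈ B, φ x ≤ (S : EReal) := by
    obtain ⟨m, hm, hmax⟩ := husc.exists_isMaxOn hBne hBc
    have hlt : φ m < ⊤ := lt_top_iff_ne_top.2 (htop m hm)
    obtain ⟨S, hS, -⟩ := EReal.lt_iff_exists_real_btwn.1 hlt
    exact ⟨S, fun x hx => (hmax hx).trans hS.le⟩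
  obtain ⟨f₁, hf₁⟩ : ∃ f₁ : ℝ, φ x₁ = (f₁ : EReal) := by
    lift φ x₁ to ℝ using ⟨htop _ hx₁B, hfin⟩ with a ha
    exact ⟨a, rfl⟩
  set K : ℝ := (|S - f₁| + 1) / (3 * s ^ 2) with hKdef
  have hK : 0 < K := by positivity
  have hKs : S - f₁ ≤ K * (3 * s ^ 2) := by
    rw [hKdef, div_mul_cancel₀ _ (by positivity)]
    linarith [le_abs_self (S - f₁)]
  set V := closedBall x₁ s with hVdef
  have hVc : IsCompact V := isCompact_closedBall _ _
  set A := {y | ∃ z ∈ V, Touch B φ K z y} with hA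
  have hAclosed : IsClosed A := isClosed_touch isClosed_closedBall hVc husc K
  -- finiteness at touching points and localisation
  have hreal : ∀ z y, Touch B φ K z y → ∃ f : ℝ, φ y = (f : EReal) := by
    intro z y h
    have h1 := h.2 x₁ hx₁B f₁ hf₁.ge
    have hb : φ y ≠ ⊥ := by
      intro hb
      rw [hb] at h1
      exact absurd h1 (not_le.2 (EReal.bot_lt_coe _))
    lift φ y to ℝ using ⟨htop _ h.1, hb⟩ with a ha
    exact ⟨a, rfl⟩
  have hloc : ∀ z ∈ V, ∀ y, Touch B φ K z y → ‖y - x₀‖ ≤ 4 * s := by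
    intro z hz y h
    obtain ⟨f, hf⟩ := hreal z y h
    have h1 := h.2 x₁ hx₁B f₁ hf₁.ge
    have h2 := hS y h.1
    rw [hf, EReal.coe_le_coe_iff] at h1 h2
    have hz' : ‖x₁ - z‖ ≤ s := by
      rw [← dist_eq_norm, dist_comm]; exact hz
    have h3 : ‖x₁ - z‖ ^ 2 ≤ s ^ 2 := pow_le_pow_left₀ (norm_nonneg _) hz' 2
    have h4 : K * ‖y - z‖ ^ 2 ≤ K * (2 * s) ^ 2 := by nlinarith
    have h5 : ‖y - z‖ ^ 2 ≤ (2 * s) ^ 2 := le_of_mul_le_mul_left h4 hK
    have h6 : ‖y - z‖ ≤ 2 * s := le_of_sq_le_sq h5 (by positivity)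
    calc ‖y - x₀‖ = ‖(y - z) + ((z - x₁) + (x₁ - x₀))‖ := by congr 1; abel
      _ ≤ ‖y - z‖ + (‖z - x₁‖ + ‖x₁ - x₀‖) :=
          (norm_add_le _ _).trans (by gcongr; exact norm_add_le _ _)
      _ ≤ 2 * s + (s + s) := by
          gcongr
          rw [norm_sub_rev]; exact hz'
      _ = 4 * s := by ring
  have hAB : A ⊆ B := by
    rintro y ⟨z, -, h⟩
    exact h.1
  refine ⟨A, hAclosed, hAB, ?_, ?_⟩
  · rw [Set.disjoint_left]
    rintro y ⟨z, hz, h⟩ ⟨-, hE⟩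
    obtain ⟨f, hf⟩ := hreal z y h
    refine hE (touch_test (V := ball x₀ (40 * s)) hφ hball isOpen_ball ball_subset_closedBall
      h hf ?_)
    rw [mem_ball, dist_eq_norm]
    linarith [hloc z hz y h]
  · -- the vertex map is Lipschitz
    choose! T hTV hT using fun y (hy : y ∈ A) => hy
    have hdist : ∀ z₁ ∈ V, ∀ z₂ ∈ V, ∀ y₁ y₂, Touch B φ K z₁ y₁ → Touch B φ K z₂ y₂ →
        ‖z₁ - z₂‖ ≤ 16 * ‖y₁ - y₂‖ := by
      intro z₁ hz₁ z₂ hz₂ y₁ y₂ h₁ h₂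
      obtain ⟨f₁', hf₁'⟩ := hreal _ _ h₁
      obtain ⟨f₂', hf₂'⟩ := hreal _ _ h₂
      have hy₁ := hloc _ hz₁ _ h₁
      have hy₂ := hloc _ hz₂ _ h₂
      have hρ : ‖y₁ - y₂‖ ≤ 8 * s := by
        calc ‖y₁ - y₂‖ = ‖(y₁ - x₀) - (y₂ - x₀)‖ := by congr 1; abel
          _ ≤ ‖y₁ - x₀‖ + ‖y₂ - x₀‖ := norm_sub_le _ _
          _ ≤ 8 * s := by linarith
      by_contra hcon
      rw [not_le] at hcon
      set ρ : ℝ := min (9 * s) ((‖y₁ - y₂‖ + ‖z₁ - z₂‖ / 16) / 2) with hρdef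
      have hρ₀ : ‖y₁ - y₂‖ ≤ ρ := by
        apply le_min <;> linarith
      have hρ₁ : 0 < ρ := by
        apply lt_min
        · positivity
        · have := norm_nonneg (y₁ - y₂)
          linarith
      have hρ₂ : ρ ≤ 9 * s := min_le_left _ _
      have hρ₃ : ρ ≤ (‖y₁ - y₂‖ + ‖z₁ - z₂‖ / 16) / 2 := min_le_right _ _
      have hb : closedBall y₁ (4 * ρ) ⊆ B := by
        apply closedBall_subset_closedBall'
        rw [dist_eq_norm]
        linarith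
      have := touch_dist hφ hball hK hρ₁ h₁ h₂ hf₁' hf₂' hρ₀ hb
      linarith
    have hLip : LipschitzOnWith 16 T A := by
      apply LipschitzOnWith.of_dist_le_mul
      intro y₁ hy₁ y₂ hy₂
      rw [dist_eq_norm, dist_eq_norm]
      have := hdist _ (hTV _ hy₁) _ (hTV _ hy₂) _ _ (hT _ hy₁) (hT _ hy₂)
      simpa using this
    have hsub : V ⊆ T '' A := by
      intro z hz
      obtain ⟨y, hy⟩ := exists_touch hBc hBne htop husc K z
      have hyA : y ∈ A := ⟨z, hz, hy⟩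
      refine ⟨y, hyA, ?_⟩
      have := hdist _ (hTV _ hyA) _ hz _ _ (hT _ hyA) hy
      rw [sub_self, norm_zero, mul_zero] at this
      exact sub_eq_zero.1 (norm_le_zero_iff.1 this)
    refine (measure_mono hsub).trans ?_
    have := hLip.hausdorffMeasure_image_le (d := (Module.finrank ℝ (Cn n) : ℝ)) (by positivity)
    rw [ENNReal.rpow_natCast] at this
    simpa using this

/-- At an exceptional point, φ is not identically -∞ near the point. -/
theorem exists_finite {n : ℕ} {Ω : Set (Cn n)} {φ : Cn n → EReal} {x₀ : Cn n} {s : ℝ}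
    (hs : 0 < s) (hball : closedBall x₀ s ⊆ Ω) (hE : x₀ ∈ exceptional Ω φ) :
    ∃ x₁ ∈ closedBall x₀ s, φ x₁ ≠ ⊥ := by
  by_contra hcon
  push Not at hcon
  refine hE.2 ⟨ball x₀ s, fun _ => 0, isOpen_ball, ball_subset_closedBall.trans hball,
    mem_ball_self hs, contDiffOn_const, ?_⟩
  intro y hy
  rw [hcon y (ball_subset_closedBall hy), EReal.bot_sub]
  exact bot_le

theorem not_density {n : ℕ} {Ω : Set (Cn n)} (hΩ : IsOpen Ω) {φ : Cn n → EReal}
    (hφ : IsPSH Ω φ) {x₀ : Cn n} (hE : x₀ ∈ exceptional Ω φ) :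
    ¬ Tendsto (fun r => (μH[Module.finrank ℝ (Cn n)] : Measure (Cn n))
        (exceptional Ω φ ∩ closedBall x₀ r) /
        (μH[Module.finrank ℝ (Cn n)] : Measure (Cn n)) (closedBall x₀ r)) (𝓝[>] 0) (𝓝 1) := by
  intro hlim
  set ν : Measure (Cn n) := μH[Module.finrank ℝ (Cn n)] with hν
  set d := Module.finrank ℝ (Cn n) with hd
  obtain ⟨ε, hε, hεΩ⟩ := Metric.isOpen_iff.1 hΩ x₀ hE.1
  set c : ℝ≥0∞ := ((640 : ℝ≥0∞) ^ d)⁻¹ with hc
  have hev : ∀ᶠ r in 𝓝[>] (0 : ℝ),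
      ν (exceptional Ω φ ∩ closedBall x₀ r) / ν (closedBall x₀ r) + c ≤ 1 := by
    filter_upwards [Ioo_mem_nhdsGT hε] with r hr
    obtain ⟨hr₀, hr₁⟩ := hr
    have hs : 0 < r / 40 := by positivity
    have h40 : 40 * (r / 40) = r := by ring
    have hball : closedBall x₀ (40 * (r / 40)) ⊆ Ω := by
      rw [h40]
      exact (closedBall_subset_ball hr₁).trans hεΩ
    have hball' : closedBall x₀ (r / 40) ⊆ Ω :=
      (closedBall_subset_closedBall (by linarith)).trans hball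
    obtain ⟨x₁, hx₁, hfin⟩ := exists_finite hs hball' hE
    obtain ⟨A, hAc, hAB, hdisj, hmeas⟩ := many_tests hφ hs hball hx₁ hfin
    rw [h40] at hAB
    rw [← hd, ← hν] at hmeas
    have hB₀ : ν (closedBall x₀ r) ≠ 0 := (measure_closedBall_pos ν x₀ hr₀).ne'
    have hB₁ : ν (closedBall x₀ r) ≠ ⊤ := measure_closedBall_lt_top.ne
    have hsum : ν (exceptional Ω φ ∩ closedBall x₀ r) + ν A ≤ ν (closedBall x₀ r) := by
      rw [add_comm, ← measure_union' ?_ hAc.measurableSet]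
      · apply measure_mono
        apply union_subset hAB inter_subset_right
      · exact hdisj.mono_right inter_subset_left
    have hVB : ν (closedBall x₀ r) = 40 ^ d * ν (closedBall x₁ (r / 40)) := by
      rw [Measure.addHaar_closedBall ν x₀ hr₀.le, Measure.addHaar_closedBall ν x₁ hs.le,
        ← mul_assoc, ← hd]
      congr 1
      rw [show (40 : ℝ≥0∞) ^ d = ENNReal.ofReal ((40 : ℝ) ^ d) by
          rw [ENNReal.ofReal_pow (by norm_num)]; norm_num,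
        ← ENNReal.ofReal_mul (by positivity), ← mul_pow, h40]
    have hBA : ν (closedBall x₀ r) ≤ 640 ^ d * ν A := by
      rw [hVB]
      calc (40 : ℝ≥0∞) ^ d * ν (closedBall x₁ (r / 40)) ≤ 40 ^ d * (16 ^ d * ν A) := by gcongr
        _ = 640 ^ d * ν A := by
            rw [← mul_assoc, ← mul_pow]; norm_num
    have h640₀ : (640 : ℝ≥0∞) ^ d ≠ 0 := by positivity
    have h640₁ : (640 : ℝ≥0∞) ^ d ≠ ⊤ := ENNReal.pow_ne_top (by norm_num)
    have hcA : c ≤ ν A / ν (closedBall x₀ r) := by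
      rw [hc, ENNReal.le_div_iff_mul_le (Or.inl hB₀) (Or.inl hB₁), mul_comm,
        ← div_eq_mul_inv]
      exact ENNReal.div_le_of_le_mul' hBA
    calc ν (exceptional Ω φ ∩ closedBall x₀ r) / ν (closedBall x₀ r) + c
        ≤ ν (exceptional Ω φ ∩ closedBall x₀ r) / ν (closedBall x₀ r) +
          ν A / ν (closedBall x₀ r) := by gcongr
      _ = (ν (exceptional Ω φ ∩ closedBall x₀ r) + ν A) / ν (closedBall x₀ r) := by
          rw [ENNReal.add_div]
      _ ≤ ν (closedBall x₀ r) / ν (closedBall x₀ r) := by gcongr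
      _ = 1 := ENNReal.div_self hB₀ hB₁
  have hle : (1 : ℝ≥0∞) + c ≤ 1 := le_of_tendsto (hlim.add_const c) hev
  have hc0 : c ≠ 0 := ENNReal.inv_ne_zero.2 (ENNReal.pow_ne_top (by norm_num))
  have : (1 : ℝ≥0∞) < 1 + c := ENNReal.lt_add_right ENNReal.one_ne_top hc0
  exact absurd hle (not_le.2 this)

/-- For every open set Ω in complex n-space and every plurisubharmonic function φ on Ω, the set
E(φ) of the points at which φ admits no differential test from above has Lebesgue measure zero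
(stated for every Haar measure of the additive group, in particular for Lebesgue measure). -/
theorem result (n : ℕ) (Ω : Set (Cn n)) (hΩ : IsOpen Ω) (φ : Cn n → EReal) (hφ : IsPSH Ω φ)
    (μ : Measure (Cn n)) [μ.IsAddHaarMeasure] : μ (exceptional Ω φ) = 0 := by
  have hac : μ ≪ (μH[Module.finrank ℝ (Cn n)] : Measure (Cn n)) :=
    Measure.absolutelyContinuous_isAddHaarMeasure _ _
  apply hac
  have h := Besicovitch.ae_tendsto_measure_inter_div
    (μH[Module.finrank ℝ (Cn n)] : Measure (Cn n)) (exceptional Ω φ)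
  rw [ae_iff] at h
  have h2 := (Measure.le_restrict_apply (μ := (μH[Module.finrank ℝ (Cn n)] : Measure (Cn n)))
    (exceptional Ω φ) _).trans h.le
  refine le_antisymm (le_trans (measure_mono ?_) h2) (zero_le)
  intro x hx
  exact ⟨not_density hΩ hφ hx, hx⟩

end Pool.Agent.Results.MP_725b87_an.UpperTestAE
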